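import Mathlib

set_option autoImplicit false

namespace Pool.Agent.Results.MP_924496_co.Two

open SimpleGraph

/-- An `m`-fold cover of `G`, with `L(v) = {v} × Fin m`, given by its cross edges:
`E u v i j` says that `(u,i)(v,j)` is an edge of `H` between `L(u)` and `L(v)`. -/
structure Cover {V : Type} (G : SimpleGraph V) (m : ℕ) where
  E : V → V → Fin m → Fin m → Prop
  symm : ∀ u v i j, E u v i j → E v u j i
  adj : ∀ u v i j, E u v i j → G.Adj u v
  uniq : ∀ u v i j j', E u v i j → E u v i j' → j = j'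

/-- an `H`-colouring: one vertex from each clique `L(v)`, no two joined by a cross edge -/
def Cover.IsCol {V : Type} {G : SimpleGraph V} {m : ℕ} (H : Cover G m) (c : V → Fin m) : Prop :=
  ∀ u v, ¬ H.E u v (c u) (c v)

/-- every `m`-fold cover has a colouring -/
def DPcol {V : Type} (G : SimpleGraph V) (m : ℕ) : Prop := ∀ H : Cover G m, ∃ c, H.IsCol c

/-- the DP-chromatic number -/
noncomputable def chiDP {V : Type} (G : SimpleGraph V) : ℕ := sInf {m | DPcol G m}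

/-- the DP color function -/
noncomputable def PDP {V : Type} (G : SimpleGraph V) (m : ℕ) : ℕ :=
  sInf {n | ∃ H : Cover G m, Nat.card {c // H.IsCol c} = n}

/-- the set of `t` with `χ_DP(G □ K_{k,t}) = χ_DP(G) + k` -/
def Good {V : Type} (G : SimpleGraph V) (k : ℕ) : Set ℕ :=
  {t | chiDP (G □ completeBipartiteGraph (Fin k) (Fin t)) = chiDP G + k}

/-- `f(G,k)` -/
noncomputable def f {V : Type} (G : SimpleGraph V) (k : ℕ) : ℕ := sInf (Good G k)

lemma pull {V W : Type} {G : SimpleGraph V} {G' : SimpleGraph W} {m n : ℕ} (h : DPcol G m)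
    (H : Cover G' n) (φ : V → W) (hφ : ∀ u v, G'.Adj (φ u) (φ v) → G.Adj u v)
    (e : V → Fin m ↪ Fin n) :
    ∃ c : V → Fin m, ∀ u v, ¬ H.E (φ u) (φ v) (e u (c u)) (e v (c v)) :=
  h ⟨fun u v i j => H.E (φ u) (φ v) (e u i) (e v j), fun _ _ _ _ h => H.symm _ _ _ _ h,
    fun _ _ _ _ h => hφ _ _ (H.adj _ _ _ _ h),
    fun _ v _ _ _ h1 h2 => (e v).injective (H.uniq _ _ _ _ _ h1 h2)⟩

lemma mono {V : Type} {G : SimpleGraph V} {m n : ℕ} (h : DPcol G m) (hmn : m ≤ n) : DPcol G n := by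
  intro H
  obtain ⟨c, hc⟩ := pull h H id (fun _ _ h => h) (fun _ => Fin.castLEEmb hmn)
  exact ⟨fun v => Fin.castLEEmb hmn (c v), hc⟩

lemma avoid {m n : ℕ} (F : Finset (Fin n)) (h : F.card + m ≤ n) :
    ∃ e : Fin m ↪ Fin n, ∀ i, e i ∉ F := by
  have h1 : m ≤ Fᶜ.card := by rw [Finset.card_compl, Fintype.card_fin]; omega
  obtain ⟨T, hT, hc⟩ := Finset.exists_subset_card_eq h1
  exact ⟨(T.orderEmbOfFin hc).toEmbedding, fun i =>
    Finset.mem_compl.1 (hT (T.orderEmbOfFin_mem hc i))⟩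

lemma forb {V : Type} {G : SimpleGraph V} {n : ℕ} (H : Cover G n) {ι : Type} (s : Finset ι)
    (u : ι → V) (c : ι → Fin n) (a : V) :
    ∃ F : Finset (Fin n), F.card ≤ s.card ∧ ∀ x ∈ s, ∀ j, H.E (u x) a (c x) j → j ∈ F := by
  classical
  refine ⟨s.biUnion fun x => Finset.univ.filter fun j => H.E (u x) a (c x) j, ?_, ?_⟩
  · refine Finset.card_biUnion_le.trans ?_
    rw [Finset.card_eq_sum_ones s]
    refine Finset.sum_le_sum fun x _ => Finset.card_le_one.2 fun j hj j' hj' => ?_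
    exact H.uniq _ _ _ _ _ (Finset.mem_filter.1 hj).2 (Finset.mem_filter.1 hj').2
  · intro x hx j hj
    exact Finset.mem_biUnion.2 ⟨x, hx, Finset.mem_filter.2 ⟨Finset.mem_univ _, hj⟩⟩

lemma greedy {V : Type} [Fintype V] (G : SimpleGraph V) : DPcol G (Fintype.card V + 1) := by
  classical
  intro H
  have key : ∀ s : Finset V, ∃ c : V → Fin (Fintype.card V + 1),
      ∀ u ∈ s, ∀ v ∈ s, ¬ H.E u v (c u) (c v) := by
    intro s
    induction s using Finset.induction_on with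
    | empty => exact ⟨fun _ => 0, by simp⟩
    | insert a s ha ih =>
      obtain ⟨c, hc⟩ := ih
      obtain ⟨F, hF, hF'⟩ := forb H s id c a
      obtain ⟨e, he⟩ := avoid (m := 1) F (by have := s.card_le_univ; omega)
      refine ⟨Function.update c a (e 0), ?_⟩
      have hs : ∀ u ∈ s, Function.update c a (e 0) u = c u := fun u hu =>
        Function.update_of_ne (fun h : u = a => ha (h ▸ hu)) _ _
      intro u hu' v hv' h
      rcases Finset.mem_insert.1 hu' with hu | hu <;> rcases Finset.mem_insert.1 hv' with hv | hv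
      · exact (H.adj _ _ _ _ h).ne (hu.trans hv.symm)
      · rw [hs v hv, hu, Function.update_self] at h
        exact he 0 (hF' v hv _ (H.symm _ _ _ _ h))
      · rw [hs u hu, hv, Function.update_self] at h
        exact he 0 (hF' u hu _ h)
      · rw [hs u hu, hs v hv] at h
        exact hc u hu v hv h
  obtain ⟨c, hc⟩ := key Finset.univ
  exact ⟨c, fun u v => hc u (Finset.mem_univ _) v (Finset.mem_univ _)⟩

lemma chi_spec {V : Type} [Fintype V] (G : SimpleGraph V) : DPcol G (chiDP G) :=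
  Nat.sInf_mem (s := {m | DPcol G m}) ⟨_, greedy G⟩

lemma upper {V : Type} {G : SimpleGraph V} {m : ℕ} (h : DPcol G m) (k t : ℕ) :
    DPcol (G □ completeBipartiteGraph (Fin k) (Fin t)) (m + k) := by
  intro H
  have hφ : ∀ (s : Fin k ⊕ Fin t) (u v : V),
      (G □ completeBipartiteGraph (Fin k) (Fin t)).Adj (u, s) (v, s) → G.Adj u v := by
    intro s u v huv
    rcases huv with h1 | h1
    · exact h1.1
    · exact absurd h1.1 (SimpleGraph.irrefl _)
  have hX : ∀ a : Fin k, ∃ c : V → Fin (m + k),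
      ∀ u v, ¬ H.E (u, Sum.inl a) (v, Sum.inl a) (c u) (c v) := fun a => by
    obtain ⟨c, hc⟩ := pull h H (fun u => (u, Sum.inl a)) (hφ _)
      (fun _ => Fin.castLEEmb (Nat.le_add_right m k))
    exact ⟨_, hc⟩
  choose cX hcX using hX
  have hY : ∀ y : Fin t, ∃ c : V → Fin (m + k),
      (∀ u v, ¬ H.E (u, Sum.inr y) (v, Sum.inr y) (c u) (c v)) ∧
      ∀ v a, ¬ H.E (v, Sum.inl a) (v, Sum.inr y) (cX a v) (c v) := fun y => by
    have : ∀ v : V, ∃ e : Fin m ↪ Fin (m + k), ∀ i a,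
        ¬ H.E (v, Sum.inl a) (v, Sum.inr y) (cX a v) (e i) := fun v => by
      obtain ⟨F, hF, hF'⟩ := forb H (Finset.univ : Finset (Fin k)) (fun a => (v, Sum.inl a))
        (fun a => cX a v) (v, Sum.inr y)
      obtain ⟨e, he⟩ := avoid (m := m) F (by simp at hF; omega)
      exact ⟨e, fun i a hh => he i (hF' a (Finset.mem_univ _) _ hh)⟩
    choose e he using this
    obtain ⟨c, hc⟩ := pull h H (fun u => (u, Sum.inr y)) (hφ _) e
    exact ⟨fun v => e v (c v), hc, fun v a => he v _ a⟩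
  choose cY hcY using hY
  refine ⟨fun p => Sum.elim (fun a => cX a p.1) (fun y => cY y p.1) p.2, ?_⟩
  rintro ⟨u, a | y⟩ ⟨v, b | z⟩ hE <;> have hA := H.adj _ _ _ _ hE <;>
    simp [boxProd_adj] at hA
  · obtain ⟨-, rfl⟩ := hA
    exact hcX a u v hE
  · subst hA
    exact (hcY z).2 u a hE
  · subst hA
    exact (hcY y).2 u b (H.symm _ _ _ _ hE)
  · obtain ⟨-, rfl⟩ := hA
    exact (hcY y).1 u v hE

/-- cross edges between the `a`-th left copy (colour `i`) and a right copy (colour `j`) -/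
def M {n : ℕ} (p q : Fin (n + 2)) (a : Fin 2) (i j : Fin (n + 2)) : Prop :=
  (i = p ∧ j = 0 ∧ (a = 0 ∨ p ≠ q)) ∨ (i = q ∧ j = 1 ∧ (a = 1 ∨ p ≠ q))

def bigE {V : Type} {G : SimpleGraph V} {n t : ℕ} (H : Cover G (n + 2)) (B : Cover G n)
    (p q : Fin t → V → Fin (n + 2)) :
    V × (Fin 2 ⊕ Fin t) → V × (Fin 2 ⊕ Fin t) → Fin (n + 2) → Fin (n + 2) → Prop
  | (u, .inl a), (v, .inl b), i, j => a = b ∧ H.E u v i j
  | (u, .inr y), (v, .inr z), i, j =>
      y = z ∧ ∃ i' j' : Fin n, i = i'.succ.succ ∧ j = j'.succ.succ ∧ B.E u v i' j'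
  | (u, .inl a), (v, .inr y), i, j => u = v ∧ M (p y u) (q y u) a i j
  | (u, .inr y), (v, .inl a), i, j => v = u ∧ M (p y v) (q y v) a j i

def big {V : Type} {G : SimpleGraph V} {n t : ℕ} (H : Cover G (n + 2)) (B : Cover G n)
    (p q : Fin t → V → Fin (n + 2)) :
    Cover (G □ completeBipartiteGraph (Fin 2) (Fin t)) (n + 2) where
  E := bigE H B p q
  symm := by
    rintro ⟨u, a | y⟩ ⟨v, b | z⟩ i j h
    · exact ⟨h.1.symm, H.symm _ _ _ _ h.2⟩
    · exact h
    · exact h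
    · obtain ⟨h1, i', j', h2, h3, h4⟩ := h
      exact ⟨h1.symm, j', i', h3, h2, B.symm _ _ _ _ h4⟩
  adj := by
    rintro ⟨u, a | y⟩ ⟨v, b | z⟩ i j h
    · exact Or.inl ⟨H.adj _ _ _ _ h.2, by rw [h.1]⟩
    · exact Or.inr ⟨by simp, h.1⟩
    · exact Or.inr ⟨by simp, h.1.symm⟩
    · obtain ⟨h1, i', j', h2, h3, h4⟩ := h
      exact Or.inl ⟨B.adj _ _ _ _ h4, by rw [h1]⟩
  uniq := by
    have h01 : (0 : Fin (n + 2)) ≠ 1 := Fin.zero_ne_one
    have h01' : (0 : Fin 2) ≠ 1 := Fin.zero_ne_one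
    rintro ⟨u, a | y⟩ ⟨v, b | z⟩ i j j' h h'
    · exact H.uniq _ _ _ _ _ h.2 h'.2
    · have h1 := h.2
      have h2 := h'.2
      unfold M at h1 h2
      grind
    · have h1 := h.2
      have h2 := h'.2
      unfold M at h1 h2
      grind
    · obtain ⟨h1, i1, j1, h2, h3, h4⟩ := h
      obtain ⟨-, i2, j2, h5, h6, h7⟩ := h'
      have : i1 = i2 := Fin.succ_injective _ (Fin.succ_injective _ (h2.symm.trans h5))
      subst this
      rw [h3, h6, B.uniq _ _ _ _ _ h4 h7]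

lemma lower {V : Type} [Fintype V] {G : SimpleGraph V} {n : ℕ} (hB : ¬ DPcol G n)
    (H : Cover G (n + 2)) :
    ¬ DPcol (G □ completeBipartiteGraph (Fin 2) (Fin (Nat.card (Sym2 {c // H.IsCol c})))) (n + 2) := by
  classical
  intro hc
  unfold DPcol at hB
  push Not at hB
  obtain ⟨B, hB⟩ := hB
  let e := Finite.equivFin (Sym2 {c // H.IsCol c})
  obtain ⟨c, hc⟩ := hc (big H B (fun y => (e.symm y).out.1.1) (fun y => (e.symm y).out.2.1))
  have hX : ∀ a : Fin 2, H.IsCol fun v => c (v, Sum.inl a) := fun a u v h =>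
    hc (u, Sum.inl a) (v, Sum.inl a) ⟨rfl, h⟩
  let y := e s(⟨_, hX 0⟩, ⟨_, hX 1⟩)
  have hy : s((e.symm y).out.1, (e.symm y).out.2) = s(⟨_, hX 0⟩, ⟨_, hX 1⟩) := by
    rw [show e.symm y = s(⟨_, hX 0⟩, ⟨_, hX 1⟩) from e.symm_apply_apply _]
    exact Quot.out_eq _
  have hv : ∀ v, ∃ i : Fin n, c (v, Sum.inr y) = i.succ.succ := by
    intro v
    have h0 : ¬ M _ _ _ _ _ := fun h => hc (v, Sum.inl 0) (v, Sum.inr y) ⟨rfl, h⟩
    have h1 : ¬ M _ _ _ _ _ := fun h => hc (v, Sum.inl 1) (v, Sum.inr y) ⟨rfl, h⟩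
    have hpq : ((e.symm y).out.1.1 v = c (v, Sum.inl 0) ∧ (e.symm y).out.2.1 v = c (v, Sum.inl 1)) ∨
        ((e.symm y).out.1.1 v = c (v, Sum.inl 1) ∧ (e.symm y).out.2.1 v = c (v, Sum.inl 0)) := by
      rcases Sym2.eq_iff.1 hy with ⟨a, b⟩ | ⟨a, b⟩
      · left; rw [a, b]; exact ⟨rfl, rfl⟩
      · right; rw [a, b]; exact ⟨rfl, rfl⟩
    unfold M at h0 h1
    have n0 : c (v, Sum.inr y) ≠ 0 := by grind
    have n1 : c (v, Sum.inr y) ≠ 1 := by grind
    obtain ⟨j, hj⟩ := Fin.exists_succ_eq.2 n0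
    have : j ≠ 0 := fun h => n1 (by rw [← hj, h]; rfl)
    cases n with
    | zero => exact absurd (Subsingleton.elim (α := Fin 1) j 0) this
    | succ n =>
      obtain ⟨i, hi⟩ := Fin.exists_succ_eq.2 this
      exact ⟨i, by rw [hi, hj]⟩
  choose d hd using hv
  exact hB d fun u v h => hc (u, Sum.inr y) (v, Sum.inr y) ⟨rfl, d u, d v, hd u, hd v, h⟩

lemma two_le {V : Type} [Fintype V] [Nonempty V] {G : SimpleGraph V} {n : ℕ} (h : DPcol G n)
    (H : Cover G (n + 1)) : 2 ≤ Nat.card {c // H.IsCol c} := by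
  obtain ⟨c, hc⟩ := mono h (Nat.le_succ n) H
  obtain ⟨d, hd⟩ := pull h H id (fun _ _ h => h) (fun v => Fin.succAboveEmb (c v))
  have : Nontrivial {c // H.IsCol c} := ⟨⟨c, hc⟩, ⟨fun v => Fin.succAboveEmb (c v) (d v), hd⟩, fun e => by
    obtain ⟨v⟩ := ‹Nonempty V›
    exact Fin.succAbove_ne (c v) (d v) (congrFun (congrArg Subtype.val e) v).symm⟩
  exact Finite.one_lt_card

/-- For every nonempty finite graph, with `P = P_DP(G, χ_DP(G) + 1)`:
`f(G,2) ≤ P (P + 1) / 2 < P ^ 2`. -/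
theorem result : ∀ (V : Type) [Fintype V] [Nonempty V] (G : SimpleGraph V),
    (Good G 2).Nonempty ∧
    f G 2 ≤ PDP G (chiDP G + 1) * (PDP G (chiDP G + 1) + 1) / 2 ∧
    f G 2 < PDP G (chiDP G + 2 - 1) ^ 2 ∧
    ¬ ∀ k, 1 ≤ k → f G k = PDP G (chiDP G + k - 1) ^ k := by
  intro V _ _ G
  have h1 := chi_spec G
  have h0 : chiDP G ≠ 0 := fun h => by
    rw [h] at h1
    obtain ⟨c, -⟩ := h1 ⟨fun _ _ _ _ => False, by simp, by simp, by simp⟩
    exact (c (Classical.arbitrary V)).elim0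
  obtain ⟨n, hn⟩ := Nat.exists_eq_succ_of_ne_zero h0
  have hB : ¬ DPcol G n := Nat.notMem_of_lt_sInf (s := {m | DPcol G m})
    (by show n < chiDP G; omega)
  obtain ⟨H, hH⟩ : PDP G (n + 2) ∈ {x | ∃ H : Cover G (n + 2), Nat.card {c // H.IsCol c} = x} :=
    Nat.sInf_mem ⟨_, ⟨fun _ _ _ _ => False, by simp, by simp, by simp⟩, rfl⟩
  rw [hn] at h1
  have h2 := two_le h1 H
  have hg : Nat.card (Sym2 {c // H.IsCol c}) ∈ Good G 2 := by
    show chiDP _ = _
    rw [hn]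
    apply le_antisymm (Nat.sInf_le (upper h1 2 _))
    by_contra hc
    refine lower hB H (mono (chi_spec _) ?_)
    unfold chiDP
    omega
  have h3 : f G 2 ≤ PDP G (n + 2) * (PDP G (n + 2) + 1) / 2 := by
    refine (Nat.sInf_le hg).trans (le_of_eq ?_)
    classical
    rw [Nat.card_eq_fintype_card, Sym2.card, ← Nat.card_eq_fintype_card, hH, Nat.choose_two_right,
      mul_comm]
    rfl
  have h4 : f G 2 < PDP G (chiDP G + 2 - 1) ^ 2 := by
    rw [hn]
    show _ < PDP G (n + 2) ^ 2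
    rw [hH] at h2
    refine h3.trans_lt (Nat.div_lt_of_lt_mul ?_)
    nlinarith
  exact ⟨⟨_, hg⟩, by rw [hn]; exact h3, h4, fun h => h4.ne (h 2 (by norm_num))⟩

end Pool.Agent.Results.MP_924496_co.Two
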